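import Pool.Agent.Y811.PC.Stm

/-!
Project PC (MP_fcb70f_an): the contact law at the cusps of the main component.
-/

set_option autoImplicit false

open Complex Metric Set Filter Topology

namespace Pool.Agent.Y429.PC.CUSP

open Pool.Agent.Y811.PC Pool.Agent.H712R2 Pool.Agent.H713R2 N62a1eb23

theorem lim_of_bounds {φ : ℝ → ℝ} {A s : ℝ} (hA : 0 < A) (hs : 0 < s)
    (h : ∀ δ : ℝ, 0 < δ → δ < 1 → δ < A → ∀ᶠ ρ in 𝓝[>] (0:ℝ),
      (A - δ) / ((1 + δ) * s) ≤ φ ρ ∧ φ ρ ≤ (A + δ) / ((1 - δ) * s)) :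
    Tendsto φ (𝓝[>] 0) (𝓝 (A / s)) := by
  have h1 : Tendsto (fun δ : ℝ => (A - δ) / ((1 + δ) * s)) (𝓝[>] 0) (𝓝 (A / s)) := by
    have : ContinuousAt (fun δ : ℝ => (A - δ) / ((1 + δ) * s)) 0 := by
      apply ContinuousAt.div (by fun_prop) (by fun_prop)
      simpa using hs.ne'
    have h2 := this.tendsto
    simp only [sub_zero, add_zero, one_mul] at h2
    exact h2.mono_left nhdsWithin_le_nhds
  have h1' : Tendsto (fun δ : ℝ => (A + δ) / ((1 - δ) * s)) (𝓝[>] 0) (𝓝 (A / s)) := by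
    have : ContinuousAt (fun δ : ℝ => (A + δ) / ((1 - δ) * s)) 0 := by
      apply ContinuousAt.div (by fun_prop) (by fun_prop)
      simpa using hs.ne'
    have h2 := this.tendsto
    simp only [sub_zero, add_zero, one_mul] at h2
    exact h2.mono_left nhdsWithin_le_nhds
  have small : ∀ᶠ δ : ℝ in 𝓝[>] 0, 0 < δ ∧ δ < 1 ∧ δ < A := by
    filter_upwards [Ioo_mem_nhdsGT (show (0:ℝ) < min 1 A from lt_min one_pos hA)] with δ hδ
    exact ⟨hδ.1, hδ.2.trans_le (min_le_left _ _), hδ.2.trans_le (min_le_right _ _)⟩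
  rw [tendsto_order]
  constructor
  · intro a ha
    obtain ⟨δ, hδ, h3⟩ := (small.and (h1.eventually (lt_mem_nhds ha))).exists
    filter_upwards [h δ hδ.1 hδ.2.1 hδ.2.2] with ρ hρ
    exact h3.trans_le hρ.1
  · intro a ha
    obtain ⟨δ, hδ, h3⟩ := (small.and (h1'.eventually (gt_mem_nhds ha))).exists
    filter_upwards [h δ hδ.1 hδ.2.1 hδ.2.2] with ρ hρ
    exact hρ.2.trans_lt h3

theorem binom3 (z : ℂ) (k : ℕ) : ∃ q : ℂ → ℂ, Continuous q ∧ ∀ v, (z + v) ^ (k + 2) =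
    z ^ (k + 2) + (k + 2) * z ^ (k + 1) * v + ((k + 2) * (k + 1) / 2) * z ^ k * v ^ 2 + v ^ 3 * q v := by
  induction k with
  | zero => exact ⟨fun _ => 0, continuous_const, fun v => by norm_num; ring⟩
  | succ k ih =>
    obtain ⟨q, hq, h⟩ := ih
    refine ⟨fun v => (z + v) * q v + ((k + 2) * (k + 1) / 2) * z ^ k, by fun_prop, fun v => ?_⟩
    have e : (z + v) ^ (k + 1 + 2) = (z + v) ^ (k + 2) * (z + v) := by ring
    rw [e, h]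
    push_cast
    ring

theorem binom2 (z : ℂ) (k : ℕ) : ∃ r : ℂ → ℂ, Continuous r ∧ ∀ v, (z + v) ^ (k + 1) =
    z ^ (k + 1) + (k + 1) * z ^ k * v + v ^ 2 * r v := by
  induction k with
  | zero => exact ⟨fun _ => 0, continuous_const, fun v => by norm_num⟩
  | succ k ih =>
    obtain ⟨r, hr, h⟩ := ih
    refine ⟨fun v => (z + v) * r v + (k + 1) * z ^ k, by fun_prop, fun v => ?_⟩
    have e : (z + v) ^ (k + 1 + 1) = (z + v) ^ (k + 1) * (z + v) := by ring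
    rw [e, h]
    push_cast
    ring

theorem local_est (d : ℕ) (hd : 2 ≤ d) (z₀ : ℂ) (hz : (d : ℂ) * z₀ ^ (d - 1) = 1) :
    ∃ F H : ℂ → ℂ, Continuous F ∧ Continuous H ∧ F 0 ≠ 0 ∧
      ‖H 0‖ ^ 2 = 2 * ((d : ℝ) - 1) / ‖z₀‖ * ‖F 0‖ ∧
      ∀ v, ((z₀ + v) - (z₀ + v) ^ d) - (z₀ - z₀ ^ d) = v ^ 2 * F v ∧
        (d : ℂ) * (z₀ + v) ^ (d - 1) - 1 = v * H v := by
  obtain ⟨k, rfl⟩ : ∃ k, d = k + 2 := ⟨d - 2, by omega⟩
  have hk : k + 2 - 1 = k + 1 := by omega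
  rw [hk] at hz ⊢
  push_cast at hz ⊢
  have hz0 : z₀ ≠ 0 := by
    rintro rfl
    simp at hz
  have hzk : ((k : ℂ) + 2) * z₀ ^ k = 1 / z₀ := by
    rw [eq_div_iff hz0]
    linear_combination hz
  obtain ⟨q, hq, h3⟩ := binom3 z₀ k
  obtain ⟨r, hr, h2⟩ := binom2 z₀ k
  have hk1 : ((k : ℂ) + 1) ≠ 0 := by exact_mod_cast Nat.succ_ne_zero k
  refine ⟨fun v => -((k + 1) / (2 * z₀)) - v * q v, fun v => (k + 1) / z₀ + (k + 2) * v * r v,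
    by fun_prop, by fun_prop, ?_, ?_, ?_⟩
  · simp only [zero_mul, sub_zero, neg_ne_zero]
    exact div_ne_zero hk1 (mul_ne_zero two_ne_zero hz0)
  · simp only [mul_zero, zero_mul, sub_zero, add_zero, norm_neg, norm_div, norm_mul]
    have e1 : ‖(k : ℂ) + 1‖ = k + 1 := by
      have : ((k : ℂ) + 1) = ((k + 1 : ℕ) : ℂ) := by push_cast; ring
      rw [this, Complex.norm_natCast]; push_cast; ring
    rw [e1]
    have hn : ‖z₀‖ ≠ 0 := norm_ne_zero_iff.2 hz0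
    have : ‖(2:ℂ)‖ = 2 := by simp
    rw [this]
    field_simp
    ring
  · intro v
    constructor
    · rw [h3]
      have : ((k : ℂ) + 2) * z₀ ^ (k + 1) * v = v := by rw [hz, one_mul]
      have h5 : ((k : ℂ) + 2) * (k + 1) / 2 * z₀ ^ k = (k + 1) / (2 * z₀) := by
        have : ((k : ℂ) + 2) * (k + 1) / 2 * z₀ ^ k = (k + 1) / 2 * ((k + 2) * z₀ ^ k) := by ring
        rw [this, hzk]
        field_simp
      rw [this, h5]
      ring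
    · rw [h2]
      have h5 : ((k : ℂ) + 2) * ((k + 1) * z₀ ^ k * v) = (k + 1) / z₀ * v := by
        have : ((k : ℂ) + 2) * ((k + 1) * z₀ ^ k * v) = (k + 1) * v * ((k + 2) * z₀ ^ k) := by ring
        rw [this, hzk]
        field_simp
      linear_combination hz + h5

theorem est (d : ℕ) (hd : 2 ≤ d) (z₀ : ℂ) (hz : (d : ℂ) * z₀ ^ (d - 1) = 1) (s : ℝ)
    (hs : s = √(2 * ((d : ℝ) - 1) / ‖z₀‖)) (hs0 : 0 < s) (δ : ℝ) (hδ : 0 < δ) (hδ1 : δ < 1) :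
    ∃ ε' : ℝ, 0 < ε' ∧ ∀ α : ℂ, ‖α - z₀‖ ≤ ε' →
      (1 - δ) * s * √‖(α - α ^ d) - (z₀ - z₀ ^ d)‖ ≤ ‖(d : ℂ) * α ^ (d - 1) - 1‖ ∧
      ‖(d : ℂ) * α ^ (d - 1) - 1‖ ≤ (1 + δ) * s * √‖(α - α ^ d) - (z₀ - z₀ ^ d)‖ := by
  obtain ⟨F, H, hF, hH, hF0, hHF, h⟩ := local_est d hd z₀ hz
  have hs2 : s ^ 2 = 2 * ((d : ℝ) - 1) / ‖z₀‖ := by
    rw [hs, Real.sq_sqrt]
    have : (2:ℝ) ≤ d := by exact_mod_cast hd
    have : (0:ℝ) ≤ (d : ℝ) - 1 := by linarith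
    positivity
  rw [← hs2] at hHF
  have hFp : 0 < ‖F 0‖ := norm_pos_iff.2 hF0
  have hsF : 0 < s ^ 2 * ‖F 0‖ := by positivity
  have e1 : ∀ᶠ v in 𝓝 (0:ℂ), (1 - δ) ^ 2 * (s ^ 2 * ‖F v‖) < ‖H v‖ ^ 2 := by
    have c1 : Continuous (fun v => ‖H v‖ ^ 2 - (1 - δ) ^ 2 * (s ^ 2 * ‖F v‖)) := by fun_prop
    have : 0 < ‖H 0‖ ^ 2 - (1 - δ) ^ 2 * (s ^ 2 * ‖F 0‖) := by
      rw [hHF]
      have : s ^ 2 * ‖F 0‖ - (1 - δ) ^ 2 * (s ^ 2 * ‖F 0‖) = δ * (2 - δ) * (s ^ 2 * ‖F 0‖) := by ring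
      rw [this]
      have : 0 < 2 - δ := by linarith
      positivity
    filter_upwards [c1.tendsto 0 |>.eventually (lt_mem_nhds this)] with v hv
    linarith
  have e2 : ∀ᶠ v in 𝓝 (0:ℂ), ‖H v‖ ^ 2 < (1 + δ) ^ 2 * (s ^ 2 * ‖F v‖) := by
    have c1 : Continuous (fun v => (1 + δ) ^ 2 * (s ^ 2 * ‖F v‖) - ‖H v‖ ^ 2) := by fun_prop
    have : 0 < (1 + δ) ^ 2 * (s ^ 2 * ‖F 0‖) - ‖H 0‖ ^ 2 := by
      rw [hHF]
      have : (1 + δ) ^ 2 * (s ^ 2 * ‖F 0‖) - s ^ 2 * ‖F 0‖ = δ * (2 + δ) * (s ^ 2 * ‖F 0‖) := by ring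
      rw [this]
      positivity
    filter_upwards [c1.tendsto 0 |>.eventually (lt_mem_nhds this)] with v hv
    linarith
  obtain ⟨R, hR, hR'⟩ := Metric.eventually_nhds_iff.1 (e1.and e2)
  refine ⟨R / 2, by positivity, ?_⟩
  intro α hα
  obtain ⟨v, rfl⟩ : ∃ v, α = z₀ + v := ⟨α - z₀, by ring⟩
  have hv : ‖v‖ ≤ R / 2 := by simpa using hα
  obtain ⟨h5, h6⟩ := hR' (show dist v 0 < R by rw [dist_zero_right]; linarith)
  obtain ⟨h7, h8⟩ := h v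
  rw [h7, h8, norm_mul, norm_mul, norm_pow, Real.sqrt_mul (by positivity), Real.sqrt_sq (norm_nonneg _)]
  have q1 : (1 - δ) * s * √‖F v‖ ≤ ‖H v‖ := by
    apply le_of_sq_le_sq _ (norm_nonneg _)
    rw [mul_pow, mul_pow, Real.sq_sqrt (norm_nonneg _)]
    linarith
  have q2 : ‖H v‖ ≤ (1 + δ) * s * √‖F v‖ := by
    apply le_of_sq_le_sq _ (by positivity)
    rw [mul_pow, mul_pow, Real.sq_sqrt (norm_nonneg _)]
    linarith
  constructor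
  · nlinarith [norm_nonneg v]
  · nlinarith [norm_nonneg v]

theorem openm (d : ℕ) (hd : 2 ≤ d) (z₀ : ℂ) (hz : (d : ℂ) * z₀ ^ (d - 1) = 1) (ε' : ℝ) (hε' : 0 < ε') :
    ∃ η : ℝ, 0 < η ∧ ∀ c : ℂ, ‖c - (z₀ - z₀ ^ d)‖ ≤ η → ∃ α : ℂ, ‖α - z₀‖ ≤ ε' ∧ α ^ d + c = α := by
  obtain ⟨F, H, hF, hH, hF0, hHF, h⟩ := local_est d hd z₀ hz
  have han : AnalyticAt ℂ (fun α : ℂ => α - α ^ d) z₀ := by fun_prop
  rcases han.eventually_constant_or_nhds_le_map_nhds with hc | hc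
  · exfalso
    have h1 : ∀ᶠ v in 𝓝 (0:ℂ), F v ≠ 0 := hF.continuousAt.eventually_ne hF0
    have h2 : ∀ᶠ v in 𝓝 (0:ℂ), (z₀ + v) - (z₀ + v) ^ d = z₀ - z₀ ^ d := by
      have : Tendsto (fun v : ℂ => z₀ + v) (𝓝 0) (𝓝 z₀) := by
        have : ContinuousAt (fun v : ℂ => z₀ + v) 0 := by fun_prop
        simpa using this.tendsto
      exact this.eventually hc
    have h3 : ∀ᶠ v in 𝓝[≠] (0:ℂ), v ≠ 0 := self_mem_nhdsWithin
    obtain ⟨v, ⟨hv1, hv2⟩, hv3⟩ := (((h1.and h2).filter_mono nhdsWithin_le_nhds).and h3).exists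
    have := (h v).1
    rw [hv2, sub_self] at this
    exact mul_ne_zero (pow_ne_zero 2 hv3) hv1 this.symm
  · have h1 : closedBall z₀ ε' ∈ 𝓝 z₀ := closedBall_mem_nhds _ hε'
    have h2 : (fun α : ℂ => α - α ^ d) '' closedBall z₀ ε' ∈ 𝓝 (z₀ - z₀ ^ d) :=
      hc (image_mem_map h1)
    obtain ⟨η, hη, h3⟩ := Metric.nhds_basis_closedBall.mem_iff.1 h2
    refine ⟨η, hη, ?_⟩
    intro c hc'
    obtain ⟨α, hα, h4⟩ := h3 (show c ∈ closedBall (z₀ - z₀ ^ d) η by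
      rw [mem_closedBall, dist_eq_norm]; exact hc')
    refine ⟨α, ?_, ?_⟩
    · rwa [mem_closedBall, dist_eq_norm] at hα
    · simp only at h4
      rw [← h4]; ring

theorem G_one (d : ℕ) (c z : ℂ) : G d 1 c z = z ^ d + c := by
  simp [G, fc]

theorem mu_one (d : ℕ) (c z : ℂ) : mu d 1 c z = (d : ℂ) * z ^ (d - 1) := by
  have : G d 1 c = fun z => z ^ d + c := by funext z; exact G_one d c z
  rw [mu, this]
  simp

theorem t_CUSP (_hA : S_ANA) : S_CUSP := by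
  intro d z₀ ε₀ hd hz hR ψ hψ
  obtain ⟨hε₀, hR1, hR2⟩ := hR
  have hd' : (2:ℝ) ≤ d := by exact_mod_cast hd
  have hz0 : z₀ ≠ 0 := by
    rintro rfl
    rw [zero_pow (by omega)] at hz
    simp at hz
  have hzn : 0 < ‖z₀‖ := norm_pos_iff.2 hz0
  obtain ⟨A, hA⟩ : ∃ A : ℝ, A = 2 * Real.pi * Real.log d := ⟨_, rfl⟩
  obtain ⟨s, hs⟩ : ∃ s : ℝ, s = √(2 * ((d : ℝ) - 1) / ‖z₀‖) := ⟨_, rfl⟩
  have hApos : 0 < A := by
    rw [hA]
    have : 0 < Real.log d := Real.log_pos (by linarith)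
    positivity
  have hspos : 0 < s := by
    rw [hs]
    apply Real.sqrt_pos.2
    have : (0:ℝ) < (d : ℝ) - 1 := by linarith
    positivity
  have hlim : 2 * Real.pi * Real.log d * √(‖z₀‖ / (2 * (d - 1))) = A / s := by
    rw [← hA, hs, div_eq_mul_inv A, ← Real.sqrt_inv, inv_div]
  rw [hlim]
  obtain ⟨c₀, hc₀⟩ : ∃ c₀, c₀ = z₀ - z₀ ^ d := ⟨_, rfl⟩
  rw [← hc₀] at hR1 hR2 ⊢
  have hmu0 : ∀ c, mu d 1 c z₀ = 1 := fun c => by rw [mu_one, hz]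
  simp only [Nat.cast_one, mul_one, div_one, hmu0, mu_one, G_one] at hR1 hR2
  rw [← hA] at hR1 hR2
  apply lim_of_bounds hApos hspos
  intro δ hδ hδ1 hδA
  obtain ⟨r₁, hr₁, H1⟩ := hR1 δ hδ
  obtain ⟨ε₁, hε₁, hest⟩ := est d hd z₀ hz s hs hspos δ hδ hδ1
  obtain ⟨ε₂, hε₂⟩ : ∃ ε₂, ε₂ = min ε₁ ε₀ := ⟨_, rfl⟩
  have hε₂0 : 0 < ε₂ := by rw [hε₂]; exact lt_min hε₁ hε₀
  obtain ⟨η, hη, hop⟩ := openm d hd z₀ hz ε₂ hε₂0
  obtain ⟨r₂, hr₂, H2⟩ := hR2 δ ε₁ hδ hε₁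
  -- smallness of ρ
  have t0 : Tendsto (fun ρ : ℝ => √ρ) (𝓝[>] 0) (𝓝 0) := by
    have := (Real.continuous_sqrt.tendsto 0).mono_left (nhdsWithin_le_nhds (s := Ioi (0:ℝ)))
    rwa [Real.sqrt_zero] at this
  have t1 : ∀ᶠ ρ in 𝓝[>] (0:ℝ), (1 + δ) * s * √ρ < r₁ := by
    have := t0.const_mul ((1 + δ) * s)
    rw [mul_zero] at this
    exact this.eventually (gt_mem_nhds hr₁)
  have t2 : ∀ᶠ ρ in 𝓝[>] (0:ℝ), (1 - δ) * s * √ρ < r₂ := by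
    have := t0.const_mul ((1 - δ) * s)
    rw [mul_zero] at this
    exact this.eventually (gt_mem_nhds hr₂)
  have t3 : ∀ᶠ ρ in 𝓝[>] (0:ℝ), ρ < min η ε₀ ∧ 0 < ρ := by
    filter_upwards [Ioo_mem_nhdsGT (show (0:ℝ) < min η ε₀ from lt_min hη hε₀)] with ρ hρ
    exact ⟨hρ.2, hρ.1⟩
  filter_upwards [t1, t2, t3] with ρ hρ1 hρ2 hρ3
  obtain ⟨hρ3, hρ0⟩ := hρ3
  have hρη : ρ ≤ η := hρ3.le.trans (min_le_left _ _)
  have hρε : ρ ≤ ε₀ := hρ3.le.trans (min_le_right _ _)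
  have hsρ : 0 < √ρ := Real.sqrt_pos.2 hρ0
  obtain ⟨L, hL⟩ : ∃ L, L = (A - δ) / ((1 + δ) * s * √ρ) := ⟨_, rfl⟩
  -- lower bound for all elements
  have low : ∀ h ∈ Dr ψ c₀ ρ, 0 < h ∧ L ≤ Real.log (1 / h) := by
    rintro h ⟨w, hw, rfl, hwρ⟩
    refine ⟨by linarith, ?_⟩
    obtain ⟨α, hα, hfix⟩ := hop (ψ w) (by rw [← hc₀]; exact hwρ.trans hρη)
    have hα1 : ‖α - z₀‖ ≤ ε₁ := hα.trans (by rw [hε₂]; exact min_le_left _ _)
    have hα0 : ‖α - z₀‖ ≤ ε₀ := hα.trans (by rw [hε₂]; exact min_le_right _ _)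
    have hψw : ψ w = α - α ^ d := by linear_combination hfix
    obtain ⟨_, q2⟩ := hest α hα1
    rw [← hψw, ← hc₀] at q2
    have hD : √‖ψ w - c₀‖ ≤ √ρ := Real.sqrt_le_sqrt hwρ
    have hM : ‖(d : ℂ) * α ^ (d - 1) - 1‖ ≤ (1 + δ) * s * √ρ :=
      q2.trans (mul_le_mul_of_nonneg_left hD (by positivity))
    have := H1 ψ hψ w α hw (hwρ.trans hρε) hα0 hfix (hM.trans hρ1.le)
    have hpos : 0 < A - δ := by linarith
    have hMl : 0 < ‖(d : ℂ) * α ^ (d - 1) - 1‖ * Real.log (1 / (‖w‖ - 1)) := hpos.trans_le this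
    have hlog : 0 < Real.log (1 / (‖w‖ - 1)) := by
      by_contra hcon
      push Not at hcon
      exact absurd hMl (not_lt.2 (mul_nonpos_of_nonneg_of_nonpos (norm_nonneg _) hcon))
    rw [hL, div_le_iff₀ (by positivity)]
    calc A - δ ≤ _ := this
      _ ≤ (1 + δ) * s * √ρ * Real.log (1 / (‖w‖ - 1)) := mul_le_mul_of_nonneg_right hM hlog.le
      _ = _ := by ring
  have bdd : ∀ h ∈ Dr ψ c₀ ρ, h ≤ Real.exp (-L) := by
    intro h hh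
    obtain ⟨h0, h1⟩ := low h hh
    rw [one_div, Real.log_inv] at h1
    rw [← Real.log_le_iff_le_exp h0]
    linarith
  -- an element
  obtain ⟨w, α, hw, hw1, hα, hfix, hM, hl⟩ := H2 ((1 - δ) * s * √ρ)
    (by have : 0 < 1 - δ := by linarith
        positivity) hρ2.le ψ hψ
  have hψw : ψ w = α - α ^ d := by linear_combination hfix
  have hmem : ‖w‖ - 1 ∈ Dr ψ c₀ ρ := by
    refine ⟨w, hw, rfl, ?_⟩
    obtain ⟨q1, _⟩ := hest α hα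
    rw [← hψw, ← hc₀] at q1
    have h1 : (1 - δ) * s * √‖ψ w - c₀‖ ≤ (1 - δ) * s * √ρ := q1.trans hM
    have h2 : √‖ψ w - c₀‖ ≤ √ρ := le_of_mul_le_mul_left h1 (by
      have : 0 < 1 - δ := by linarith
      positivity)
    exact (Real.sqrt_le_sqrt_iff hρ0.le).1 h2
  have hB : BddAbove (Dr ψ c₀ ρ) := ⟨_, bdd⟩
  have hle : ‖w‖ - 1 ≤ sSup (Dr ψ c₀ ρ) := le_csSup hB hmem
  have hS : sSup (Dr ψ c₀ ρ) ≤ Real.exp (-L) := csSup_le ⟨_, hmem⟩ bdd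
  have hw0 : 0 < ‖w‖ - 1 := by linarith
  have hS0 : 0 < sSup (Dr ψ c₀ ρ) := hw0.trans_le hle
  have hlogS : L ≤ Real.log (1 / sSup (Dr ψ c₀ ρ)) := by
    rw [one_div, Real.log_inv]
    have := (Real.log_le_iff_le_exp hS0).2 hS
    linarith
  have hlogS2 : Real.log (1 / sSup (Dr ψ c₀ ρ)) ≤ Real.log (1 / (‖w‖ - 1)) := by
    apply Real.log_le_log (by positivity)
    exact one_div_le_one_div_of_le hw0 hle
  constructor
  · have : (A - δ) / ((1 + δ) * s) = √ρ * L := by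
      rw [hL]; field_simp
    rw [this]
    exact mul_le_mul_of_nonneg_left hlogS hsρ.le
  · have h1δ : 0 < 1 - δ := by linarith
    rw [le_div_iff₀ (by positivity)]
    calc √ρ * Real.log (1 / sSup (Dr ψ c₀ ρ)) * ((1 - δ) * s)
        = (1 - δ) * s * √ρ * Real.log (1 / sSup (Dr ψ c₀ ρ)) := by ring
      _ ≤ (1 - δ) * s * √ρ * Real.log (1 / (‖w‖ - 1)) :=
        mul_le_mul_of_nonneg_left hlogS2 (by positivity)
      _ ≤ A + δ := hl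

end Pool.Agent.Y429.PC.CUSP
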